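import Pool.Agent.LibLG5.FIN
import Pool.Agent.LibGP53.G1

/-! Row B1: one class modulo `W`, arbitrary sets of positions. -/

open Finset Filter

namespace Pool.Agent.LibVO95

open Pool.Agent.LibRG87 Pool.Agent.LibLG5

/-- the elements `a` of `S` with `(c + a, W) = 1` -/
def SC (W c : ℕ) (S : Finset ℕ) : Finset ℕ := S.filter fun a => (c + a).Coprime W

theorem B1_free {z q0 k1 T c m : ℕ} {S : Finset ℕ} (hk1 : 1 ≤ k1) (hz : 4 ≤ z) (hwz : wf z ≤ z)
    (hX : 0 < X5 z q0 k1 T (fun a : SC (primorial (wf z)) c S => (a : ℕ))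
      (c + primorial (wf z) * m)) :
    ∀ s ∈ S, ∃ p : ℕ, p.Prime ∧ p ≤ z ^ k1 ∧ p ∣ c + primorial (wf z) * m + s := by
  set n := c + primorial (wf z) * m with hndef
  have hNb : Nb (wf z) z (z ^ k1) (fun a : SC (primorial (wf z)) c S => (a : ℕ)) n = 0 := by
    by_contra hne
    unfold X5 at hX
    rw [if_neg (fun hh => hne hh.1)] at hX
    exact lt_irrefl _ hX
  have hzk : z ≤ z ^ k1 := by
    calc z = z ^ 1 := (pow_one z).symm
      _ ≤ z ^ k1 := Nat.pow_le_pow_right (by omega) hk1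
  intro s hs
  by_cases hc : (c + s).Coprime (primorial (wf z))
  · have haS : s ∈ SC (primorial (wf z)) c S := mem_filter.2 ⟨hs, hc⟩
    unfold Nb at hNb
    rw [Finset.card_eq_zero, Finset.filter_eq_empty_iff] at hNb
    have h1 := hNb (Finset.mem_univ (⟨s, haS⟩ : SC (primorial (wf z)) c S))
    by_contra hcon
    push Not at hcon
    apply h1
    refine ⟨fun r hr hd => ?_, fun r hr hd => ?_⟩
    · rw [PP, Finset.mem_filter, Finset.mem_Ioc] at hr
      exact hcon r hr.2 (hr.1.2.trans hzk) hd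
    · rw [PP, Finset.mem_filter, Finset.mem_Ioc] at hr
      exact hcon r hr.2 hr.1.2 hd
  · obtain ⟨r, hr, hr1, hr2⟩ := Nat.Prime.not_coprime_iff_dvd.mp hc
    have h3 : r ≤ wf z := (Nat.Prime.dvd_primorial_iff hr).mp hr2
    refine ⟨r, hr, (h3.trans hwz).trans hzk, ?_⟩
    have h5 : n + s = (c + s) + primorial (wf z) * m := by rw [hndef]; ring
    rw [h5]
    exact Dvd.dvd.add hr1 (Dvd.dvd.mul_right hr2 m)

theorem B1_inj {W c : ℕ} {S S' : Finset ℕ} (h : Disjoint S S') : Function.Injective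
    (Sum.elim (fun a : SC W c S => (a : ℕ)) (fun a : SC W c S' => (a : ℕ))) := by
  have h1 : ∀ a : SC W c S, (a : ℕ) ∈ S := fun a => (mem_filter.1 a.2).1
  have h2 : ∀ a : SC W c S', (a : ℕ) ∈ S' := fun a => (mem_filter.1 a.2).1
  rintro (a | a) (a' | a') hEq
  · simp only [Sum.elim_inl] at hEq
    rw [Subtype.ext hEq]
  · simp only [Sum.elim_inl, Sum.elim_inr] at hEq
    have h3 := h2 a'
    rw [← hEq] at h3
    exact absurd h3 (Finset.disjoint_left.1 h (h1 a))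
  · simp only [Sum.elim_inl, Sum.elim_inr] at hEq
    have h3 := h2 a
    rw [hEq] at h3
    exact absurd h3 (Finset.disjoint_left.1 h (h1 a'))
  · simp only [Sum.elim_inr] at hEq
    rw [Subtype.ext hEq]

open scoped Classical in
/-- all sets of the family contain a rough position -/
noncomputable def Rough (u : ℕ) (I : Finset ℕ) (S : ℕ → Finset ℕ) (n : ℕ) : Prop :=
  ∀ j ∈ I, ∃ s ∈ S j, ∀ p : ℕ, p.Prime → p ≤ u → ¬ p ∣ n + s

open scoped Classical in
theorem B1_class (l e : ℝ) (hl : 1 ≤ l) (he : 0 < e) (he1 : e < 1) : ∃ (k1 : ℕ) (Bd : ℝ), 3 ≤ k1 ∧ 1 ≤ Bd ∧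
    ∀ᶠ z : ℕ in atTop, ∀ (c M : ℕ) (I : Finset ℕ) (S : ℕ → Finset ℕ), I.Nonempty →
      (∀ i ∈ I, ∀ j ∈ I, i ≠ j → Disjoint (S i) (S j)) →
      (∀ j ∈ I, ∀ s ∈ S j, 1 ≤ s ∧ (s : ℝ) ≤ Real.log z ^ 2) →
      (∀ j ∈ I, ((SC (primorial (wf z)) c (S j)).card : ℝ) * V1 (wf z) z ≤ 64 * l * k1) →
      z ^ (16 * k1 - 1) ≤ M → (∀ m < M, c + primorial (wf z) * m ≤ z ^ (16 * k1)) →
      (((range M).filter fun m => Rough (z ^ k1) I S (c + primorial (wf z) * m)).card : ℝ) ≤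
        (Bd / I.card + 3 * e) * M := by
  obtain ⟨C, hC, hQF, hblk⟩ := block
  obtain ⟨q0, k1, K, T, Bd, hBd, hpar, hev⟩ := hblk l e hl he he1
  have hpar' := hpar
  obtain ⟨hq0, hk1, hK, _, _, _, _⟩ := hpar'
  have hpr := pair C hQF l e hl he he1 q0 k1 K T hpar
  refine ⟨k1, Bd, hk1, hBd, ?_⟩
  have hwz : ∀ᶠ z : ℕ in atTop, 4 ≤ z ∧ wf z ≤ z := by
    filter_upwards [eventually_ge_atTop 4] with z hz
    refine ⟨hz, ?_⟩
    unfold wf
    have h2 : Nat.log 2 (Nat.log 2 z) ≤ Nat.log 2 z := Nat.log_le_self 2 _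
    have h3 : Nat.log 2 z ≤ z := Nat.log_le_self 2 _
    omega
  filter_upwards [hev, hpr, hwz] with z hB hPr hz
  intro c M I S hI hdis hS hcard hM1 hcM
  set W := primorial (wf z) with hWdef
  rcases Nat.eq_zero_or_pos M with hM0 | hM0
  · rw [hM0]
    simp
  have hM0' : (0 : ℝ) < (M : ℝ) := by exact_mod_cast hM0
  let X : ℕ → ℕ → ℝ := fun j m => if j ∈ I ∧ m < M then
    X5 z q0 k1 T (fun a : SC W c (S j) => (a : ℕ)) (c + W * m) else 0
  let d : ℕ → ℝ := fun j => DG z q0 k1 (fun a : SC W c (S j) => (a : ℕ))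
  have hXeq : ∀ j ∈ I, ∀ m < M, X j m =
      X5 z q0 k1 T (fun a : SC W c (S j) => (a : ℕ)) (c + W * m) := fun j hj m hm =>
    if_pos ⟨hj, hm⟩
  have hbz : ∀ j ∈ I, ∀ a : SC W c (S j), 1 ≤ (a : ℕ) ∧ ((a : ℕ) : ℝ) ≤ Real.log z ^ 2 :=
    fun j hj a => hS j hj a (mem_filter.1 a.2).1
  have hcard' : ∀ j ∈ I, (Fintype.card (SC W c (S j)) : ℝ) * V1 (wf z) z ≤ 64 * l * k1 := by
    intro j hj
    rw [Fintype.card_coe]
    exact hcard j hj
  have hinj : ∀ j, Function.Injective (fun a : SC W c (S j) => (a : ℕ)) := fun j =>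
    Subtype.val_injective
  have hsum : ∀ j ∈ I, ∑ m ∈ range M, X j m =
      avg M (fun m => X5 z q0 k1 T (fun a : SC W c (S j) => (a : ℕ)) (c + W * m)) * M := by
    intro j hj
    rw [avg, div_mul_cancel₀ _ hM0'.ne']
    exact Finset.sum_congr rfl fun m hm => hXeq j hj m (Finset.mem_range.mp hm)
  have hblock : ∀ j ∈ I, (1 - e) * d j ≤
      avg M (fun m => X5 z q0 k1 T (fun a : SC W c (S j) => (a : ℕ)) (c + W * m)) ∧
      avg M (fun m => X5 z q0 k1 T (fun a : SC W c (S j) => (a : ℕ)) (c + W * m)) ≤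
        (1 + e) * d j ∧
      ∀ m < M, X5 z q0 k1 T (fun a : SC W c (S j) => (a : ℕ)) (c + W * m) ≤ Bd := fun j hj =>
    hB (SC W c (S j)) (fun a => (a : ℕ)) c M (hinj j) (hbz j hj) (hcard' j hj) hM1 hcM
  have hX0 : ∀ j m, 0 ≤ X j m ∧ X j m ≤ Bd := by
    intro j m
    by_cases hjm : j ∈ I ∧ m < M
    · rw [hXeq j hjm.1 m hjm.2]
      exact ⟨X5_nonneg _ _ _ _ _ _, (hblock j hjm.1).2.2 m hjm.2⟩
    · have : X j m = 0 := if_neg hjm
      rw [this]
      exact ⟨le_rfl, by linarith⟩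
  have h3 : ∀ i ∈ I, ∀ j ∈ I, i ≠ j → ∑ m ∈ range M, X i m * X j m ≤ (1 + e) * d i * d j * M := by
    intro i hi j hj hij
    have h1 := hPr (SC W c (S i)) (SC W c (S j)) (fun a => (a : ℕ)) (fun a => (a : ℕ)) c M
      (B1_inj (hdis i hi j hj hij)) (hbz i hi) (hbz j hj) (hcard' i hi) (hcard' j hj) hM1 hcM
    have h2 : ∑ m ∈ range M, X i m * X j m =
        avg M (fun m => X5 z q0 k1 T (fun a : SC W c (S i) => (a : ℕ)) (c + W * m) *
          X5 z q0 k1 T (fun a : SC W c (S j) => (a : ℕ)) (c + W * m)) * M := by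
      rw [avg, div_mul_cancel₀ _ hM0'.ne']
      refine Finset.sum_congr rfl fun m hm => ?_
      rw [hXeq i hi m (Finset.mem_range.mp hm), hXeq j hj m (Finset.mem_range.mp hm)]
    rw [h2]
    calc avg M (fun m => X5 z q0 k1 T (fun a : SC W c (S i) => (a : ℕ)) (c + W * m) *
          X5 z q0 k1 T (fun a : SC W c (S j) => (a : ℕ)) (c + W * m)) * M
        ≤ ((1 + e) * (d i * d j)) * M := mul_le_mul_of_nonneg_right h1 hM0'.le
      _ = (1 + e) * d i * d j * (M : ℝ) := by ring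
  -- the enumeration of `I`
  let em := I.orderEmbOfFin rfl
  let f : ℕ → ℕ := fun k => if h : k < I.card then em ⟨k, h⟩ else 0
  have hf : ∀ k, ∀ h : k < I.card, f k = em ⟨k, h⟩ := fun k h => dif_pos h
  have hfI : ∀ k < I.card, f k ∈ I := by
    intro k hk
    rw [hf k hk]
    exact Finset.orderEmbOfFin_mem I rfl ⟨k, hk⟩
  have hfinj : ∀ i < I.card, ∀ j < I.card, i ≠ j → f i ≠ f j := by
    intro i hi j hj hij h
    rw [hf i hi, hf j hj] at h
    have := em.injective h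
    rw [Fin.mk.injEq] at this
    exact hij this
  have hfsurj : ∀ j ∈ I, ∃ k < I.card, f k = j := by
    intro j hj
    have h1 : j ∈ Set.range em := by
      rw [Finset.range_orderEmbOfFin]
      exact hj
    obtain ⟨⟨k, hk⟩, h2⟩ := h1
    exact ⟨k, hk, by rw [hf k hk, h2]⟩
  have hch := GP.cheb (M := M) (J := I.card) (Finset.card_pos.2 hI) hBd he he1.le
    (fun k m => X (f k) m) (fun k => d (f k))
    (fun k _ => one_le_dg (PP z (z ^ k1)) z q0 k1 (fun p hp => (Finset.mem_filter.mp hp).2)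
      (by omega) (wf z) _)
    (fun k m => hX0 (f k) m)
    (fun k hk => by
      rw [hsum (f k) (hfI k hk)]
      exact mul_le_mul_of_nonneg_right (hblock (f k) (hfI k hk)).1 hM0'.le)
    (fun k hk => by
      rw [hsum (f k) (hfI k hk)]
      exact mul_le_mul_of_nonneg_right (hblock (f k) (hfI k hk)).2.1 hM0'.le)
    (fun i hi j hj hij => h3 (f i) (hfI i hi) (f j) (hfI j hj) (hfinj i hi j hj hij))
  have hsub : ((range M).filter fun m => Rough (z ^ k1) I S (c + W * m)) ⊆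
      ((range M).filter fun m => ∀ j < I.card, X (f j) m = 0) := by
    intro m hm
    have hm' := Finset.mem_filter.1 hm
    have hmM : m < M := mem_range.1 hm'.1
    refine Finset.mem_filter.2 ⟨hm'.1, fun k hk => ?_⟩
    by_contra hne
    have hpos : 0 < X (f k) m := lt_of_le_of_ne (hX0 (f k) m).1 (Ne.symm hne)
    rw [hXeq (f k) (hfI k hk) m hmM] at hpos
    have hfree := B1_free (by omega) hz.1 hz.2 hpos
    obtain ⟨s, hs, hr⟩ := hm'.2 (f k) (hfI k hk)
    obtain ⟨p, hp, hpz, hpd⟩ := hfree s hs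
    exact hr p hp hpz hpd
  refine (Nat.cast_le.2 (card_le_card hsub)).trans (le_trans (le_of_eq ?_) hch)
  unfold GP.num
  congr

end Pool.Agent.LibVO95
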