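import Pool.Agent.LibVO95.B1

/-! Row B2: all classes modulo `W`. -/

open Finset Filter

namespace Pool.Agent.LibVO95

open Pool.Agent.LibRG87 Pool.Agent.LibLG5

theorem B2_sum {W : ℕ} (S : Finset ℕ) :
    ∑ c ∈ range W, (SC W c S).card = W.totient * S.card := by
  classical
  have h1 : ∀ c ∈ range W, (SC W c S).card = ∑ a ∈ S, if (c + a).Coprime W then 1 else 0 := by
    intro c _
    rw [SC, card_filter]
  rw [sum_congr rfl h1, sum_comm]
  have h2 : ∀ a ∈ S, (∑ c ∈ range W, if (c + a).Coprime W then 1 else 0) = W.totient := by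
    intro a _
    rw [← card_filter, ← Nat.filter_coprime_Ico_eq_totient W a]
    refine Finset.card_bij (fun c _ => a + c) ?_ ?_ ?_
    · intro c hc
      rw [mem_filter, mem_range] at hc
      rw [mem_filter, mem_Ico]
      refine ⟨⟨by omega, by omega⟩, ?_⟩
      rw [Nat.coprime_comm, add_comm]
      exact hc.2
    · intro c _ c' _ h
      exact Nat.add_left_cancel h
    · intro b hb
      rw [mem_filter, mem_Ico] at hb
      refine ⟨b - a, ?_, by omega⟩
      rw [mem_filter, mem_range]
      refine ⟨by omega, ?_⟩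
      rw [Nat.sub_add_cancel hb.1.1, Nat.coprime_comm]
      exact hb.2
  rw [sum_congr rfl h2, sum_const, smul_eq_mul, mul_comm]

/-- Markov for one set -/
theorem B2_markov {W : ℕ} (S : Finset ℕ) {V t B : ℝ} (hV : 0 ≤ V) (ht : 0 < t)
    (hB : (W.totient : ℝ) * S.card * V ≤ B) :
    (((range W).filter fun c => ¬ ((SC W c S).card : ℝ) * V ≤ t).card : ℝ) * t ≤ B := by
  classical
  have h1 : ∑ c ∈ range W, ((SC W c S).card : ℝ) * V = W.totient * S.card * V := by
    rw [← sum_mul]
    have := B2_sum (W := W) S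
    have h2 : ∑ c ∈ range W, ((SC W c S).card : ℝ) = ((W.totient * S.card : ℕ) : ℝ) := by
      rw [← this]
      push_cast
      rfl
    rw [h2]
    push_cast
    ring
  calc (((range W).filter fun c => ¬ ((SC W c S).card : ℝ) * V ≤ t).card : ℝ) * t
      = ∑ c ∈ (range W).filter fun c => ¬ ((SC W c S).card : ℝ) * V ≤ t, t := by
        rw [sum_const, nsmul_eq_mul]
    _ ≤ ∑ c ∈ (range W).filter fun c => ¬ ((SC W c S).card : ℝ) * V ≤ t, ((SC W c S).card : ℝ) * V := by
        refine sum_le_sum fun c hc => ?_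
        exact (not_le.1 (mem_filter.1 hc).2).le
    _ ≤ ∑ c ∈ range W, ((SC W c S).card : ℝ) * V := by
        refine sum_le_sum_of_subset_of_nonneg (filter_subset _ _) fun c _ _ => by positivity
    _ = W.totient * S.card * V := h1
    _ ≤ B := hB

/-- few classes have many unbalanced sets -/
theorem B2_classes {W J : ℕ} (S : ℕ → Finset ℕ) {V t η : ℝ} (hV : 0 ≤ V) (ht : 0 < t)
    (hB : ∀ j < J, (W.totient : ℝ) * (S j).card * V ≤ η * W * t) (hJ : 0 < J) :
    (((range W).filter fun c => ¬ (J : ℝ) ≤
      2 * (((range J).filter fun j => ((SC W c (S j)).card : ℝ) * V ≤ t).card : ℝ)).card : ℝ) ≤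
      2 * η * W := by
  classical
  have hJ' : (0 : ℝ) < J := by exact_mod_cast hJ
  have h1 : ∑ c ∈ range W, (((range J).filter fun j => ¬ ((SC W c (S j)).card : ℝ) * V ≤ t).card : ℝ) ≤
      J * (η * W) := by
    have e1 : ∀ c ∈ range W, (((range J).filter fun j => ¬ ((SC W c (S j)).card : ℝ) * V ≤ t).card : ℝ) =
        ∑ j ∈ range J, if ¬ ((SC W c (S j)).card : ℝ) * V ≤ t then (1 : ℝ) else 0 := by
      intro c _
      rw [card_filter]
      push_cast
      rfl
    rw [sum_congr rfl e1, sum_comm]
    have e2 : ∀ j ∈ range J, (∑ c ∈ range W, if ¬ ((SC W c (S j)).card : ℝ) * V ≤ t then (1 : ℝ) else 0) ≤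
        η * W := by
      intro j hj
      have e3 : (∑ c ∈ range W, if ¬ ((SC W c (S j)).card : ℝ) * V ≤ t then (1 : ℝ) else 0) =
          (((range W).filter fun c => ¬ ((SC W c (S j)).card : ℝ) * V ≤ t).card : ℝ) := by
        rw [card_filter]
        push_cast
        rfl
      rw [e3]
      have e4 := B2_markov (W := W) (S j) hV ht (hB j (mem_range.1 hj))
      exact le_of_mul_le_mul_right e4 ht
    refine (sum_le_sum e2).trans (le_of_eq ?_)
    rw [sum_const, card_range, nsmul_eq_mul]
  set Bd := (range W).filter fun c => ¬ (J : ℝ) ≤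
      2 * (((range J).filter fun j => ((SC W c (S j)).card : ℝ) * V ≤ t).card : ℝ) with hBd
  have h2 : (Bd.card : ℝ) * (J / 2) ≤ J * (η * W) := by
    refine le_trans ?_ h1
    calc (Bd.card : ℝ) * (J / 2) = ∑ c ∈ Bd, (J : ℝ) / 2 := by rw [sum_const, nsmul_eq_mul]
      _ ≤ ∑ c ∈ Bd, (((range J).filter fun j => ¬ ((SC W c (S j)).card : ℝ) * V ≤ t).card : ℝ) := by
          refine sum_le_sum fun c hc => ?_
          have e5 := (mem_filter.1 hc).2
          have e6 := Finset.card_filter_add_card_filter_not (s := range J)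
            (fun j => ((SC W c (S j)).card : ℝ) * V ≤ t)
          rw [card_range] at e6
          have e7 : ((((range J).filter fun j => ((SC W c (S j)).card : ℝ) * V ≤ t).card : ℝ)) +
              (((range J).filter fun j => ¬ ((SC W c (S j)).card : ℝ) * V ≤ t).card : ℝ) = J := by
            exact_mod_cast e6
          push Not at e5
          linarith
      _ ≤ _ := by
          refine sum_le_sum_of_subset_of_nonneg (filter_subset _ _) fun c _ _ => by positivity
  have h3 : (Bd.card : ℝ) * (J / 2) ≤ (2 * η * W) * (J / 2) := by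
    refine h2.trans (le_of_eq ?_)
    ring
  exact le_of_mul_le_mul_right h3 (by positivity)

end Pool.Agent.LibVO95
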