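import Pool.Agent.LibVO95.B3

/-! Row B4: all large `x`. -/

open Finset Filter

namespace Pool.Agent.LibVO95

open Pool.Agent.LibRG87 Pool.Agent.LibLG5

theorem B4_scale (q : ℕ) (hq : 1 ≤ q) (P : ℕ → Prop) (hP : ∀ᶠ z : ℕ in atTop, P z) :
    ∃ x₀ : ℕ, ∀ x : ℕ, x₀ ≤ x → ∃ z : ℕ, P z ∧ 2 ≤ z ∧ x ≤ z ^ q ∧ z ^ q ≤ 2 * x := by
  have ht : Tendsto (fun z : ℕ => (1 + 1 / (z : ℝ)) ^ q) atTop (nhds 1) := by
    have h1 : Tendsto (fun z : ℕ => 1 / (z : ℝ)) atTop (nhds 0) :=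
      tendsto_one_div_atTop_nhds_zero_nat
    have h2 := ((tendsto_const_nhds (x := (1 : ℝ))).add h1).pow q
    rw [add_zero, one_pow] at h2
    exact h2
  obtain ⟨z1, hz1⟩ := eventually_atTop.1 (ht.eventually (gt_mem_nhds (show (1 : ℝ) < 2 by norm_num)))
  obtain ⟨z2, hz2⟩ := eventually_atTop.1 hP
  set z0 := max (max z1 z2) 2 with hz0
  refine ⟨(z0 + 1) ^ q + 1, fun x hx => ?_⟩
  have hex : ∃ z : ℕ, x ≤ z ^ q := ⟨x, Nat.le_self_pow (by omega) x⟩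
  classical
  set z := Nat.find hex with hz
  have h1 : x ≤ z ^ q := Nat.find_spec hex
  have h2 : z0 + 1 < z := by
    by_contra hc
    have : z ^ q ≤ (z0 + 1) ^ q := Nat.pow_le_pow_left (not_lt.1 hc) q
    omega
  have h3 : (z - 1) ^ q < x := by
    have := Nat.find_min hex (m := z - 1) (by omega)
    omega
  have hz1' : z1 ≤ z - 1 := by
    have : z1 ≤ z0 := (le_max_left _ _).trans (le_max_left _ _)
    omega
  have hz2' : z2 ≤ z := by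
    have : z2 ≤ z0 := (le_max_right _ _).trans (le_max_left _ _)
    omega
  have hz02 : 2 ≤ z0 := le_max_right _ _
  refine ⟨z, hz2 z hz2', by omega, h1, ?_⟩
  have h4 := hz1 (z - 1) hz1'
  have h5 : (0 : ℝ) < ((z - 1 : ℕ) : ℝ) := by
    have : 0 < z - 1 := by omega
    exact_mod_cast this
  have h6 : (z : ℝ) ^ q = (1 + 1 / ((z - 1 : ℕ) : ℝ)) ^ q * ((z - 1 : ℕ) : ℝ) ^ q := by
    rw [← mul_pow]
    congr 1
    field_simp
    rw [Nat.cast_sub (by omega)]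
    push_cast
    ring
  have h7 : (z : ℝ) ^ q ≤ 2 * x := by
    rw [h6]
    have h8 : (((z - 1 : ℕ) : ℝ)) ^ q ≤ x := by exact_mod_cast h3.le
    calc (1 + 1 / ((z - 1 : ℕ) : ℝ)) ^ q * ((z - 1 : ℕ) : ℝ) ^ q ≤ 2 * ((z - 1 : ℕ) : ℝ) ^ q :=
          mul_le_mul_of_nonneg_right h4.le (by positivity)
      _ ≤ 2 * x := by linarith
  exact_mod_cast h7

open scoped Classical in
theorem sets_all (l δ : ℝ) (hδ : 0 < δ) : ∃ J x₀ : ℕ, ∀ x : ℕ, x₀ ≤ x → ∀ S : ℕ → Finset ℕ,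
    (∀ i < J, ∀ j < J, i ≠ j → Disjoint (S i) (S j)) →
    (∀ j < J, ∀ s ∈ S j, 1 ≤ s ∧ (s : ℝ) ≤ Real.log x ^ (3 / 2 : ℝ)) →
    (∀ j < J, ((S j).card : ℝ) ≤ l * Real.log x) →
    (((range x).filter fun n : ℕ => ∀ j < J, ∃ s ∈ S j, ∀ p : ℕ, p.Prime → p ∣ n + s →
      (x : ℝ) ^ (1 / 15 : ℝ) < p).card : ℝ) ≤ δ * x := by
  obtain ⟨l', hl'1, hll'⟩ : ∃ l' : ℝ, 1 ≤ l' ∧ l ≤ l' := ⟨max l 1, le_max_right _ _, le_max_left _ _⟩
  obtain ⟨δ', hδ'0, hδ'1, hδ'δ⟩ : ∃ δ' : ℝ, 0 < δ' ∧ δ' ≤ 1 ∧ δ' ≤ δ :=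
    ⟨min δ 1, lt_min hδ one_pos, min_le_right _ _, min_le_left _ _⟩
  obtain ⟨k1, J, hk1, hJ, hev⟩ := B3_blocks l' δ' hl'1 hδ'0 hδ'1
  obtain ⟨q, hq⟩ : ∃ q : ℕ, q = 16 * k1 := ⟨_, rfl⟩
  have hlog : Tendsto (fun n : ℕ => Real.log n) atTop atTop :=
    Real.tendsto_log_atTop.comp tendsto_natCast_atTop_atTop
  obtain ⟨x1, hx1⟩ := B4_scale q (by omega) _ (hev.and (hlog.eventually_ge_atTop (max 1 ((q : ℝ) ^ 3))))
  refine ⟨J, max x1 2, fun x hx S hdis hS hcard => ?_⟩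
  obtain ⟨z, ⟨hz, hzlog⟩, hz2, hxz, hzx⟩ := hx1 x ((le_max_left _ _).trans hx)
  have hx2 : 2 ≤ x := (le_max_right _ _).trans hx
  have hx2' : (2 : ℝ) ≤ x := by exact_mod_cast hx2
  have hx0 : (0 : ℝ) < x := by linarith
  have hz0 : (0 : ℝ) < z := by
    have : 0 < z := by omega
    exact_mod_cast this
  have hlz1 : 1 ≤ Real.log z := (le_max_left _ _).trans hzlog
  have hlz3 : (q : ℝ) ^ 3 ≤ Real.log z := (le_max_right _ _).trans hzlog
  have hq0 : (1 : ℝ) ≤ q := by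
    have : 1 ≤ q := by omega
    exact_mod_cast this
  have hlx : Real.log x ≤ q * Real.log z := by
    rw [← Real.log_pow]
    exact Real.log_le_log hx0 (by exact_mod_cast hxz)
  have hlx0 : 0 ≤ Real.log x := Real.log_natCast_nonneg x
  have hpos : ∀ j < J, ∀ s ∈ S j, 1 ≤ s ∧ (s : ℝ) ≤ Real.log z ^ 2 := by
    intro j hj s hs
    refine ⟨(hS j hj s hs).1, (hS j hj s hs).2.trans ?_⟩
    have e1 : Real.log x ^ (3 / 2 : ℝ) ≤ (q * Real.log z) ^ (3 / 2 : ℝ) :=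
      Real.rpow_le_rpow hlx0 hlx (by norm_num)
    refine e1.trans ?_
    have e2 : 0 ≤ (q * Real.log z) ^ (3 / 2 : ℝ) := by positivity
    refine (pow_le_pow_iff_left₀ e2 (by positivity) two_ne_zero).mp ?_
    rw [← Real.rpow_natCast, ← Real.rpow_mul (by positivity)]
    norm_num
    calc (q * Real.log z) ^ 3 = q ^ 3 * Real.log z ^ 3 := by ring
      _ ≤ Real.log z * Real.log z ^ 3 := mul_le_mul_of_nonneg_right hlz3 (by positivity)
      _ = (Real.log z ^ 2) ^ 2 := by ring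
  have hcard' : ∀ j < J, ((S j).card : ℝ) ≤ 32 * l' * k1 * Real.log z := by
    intro j hj
    refine (hcard j hj).trans ?_
    have e1 : l * Real.log x ≤ l' * (q * Real.log z) := by
      calc l * Real.log x ≤ l' * Real.log x := mul_le_mul_of_nonneg_right hll' hlx0
        _ ≤ l' * (q * Real.log z) := mul_le_mul_of_nonneg_left hlx (by linarith)
    refine e1.trans ?_
    rw [hq]
    push_cast
    have : 0 ≤ l' * k1 * Real.log z := by positivity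
    nlinarith
  have hmain := hz S hdis hpos hcard'
  rw [← hq] at hmain
  have hu : (((z ^ k1 : ℕ)) : ℝ) ≤ (x : ℝ) ^ (1 / 15 : ℝ) := by
    set u : ℕ := z ^ k1 with hudef
    have hu2 : 2 ≤ u := by
      calc 2 ≤ z := hz2
        _ = z ^ 1 := (pow_one z).symm
        _ ≤ z ^ k1 := Nat.pow_le_pow_right (by omega) (by omega)
    have e1 : u ^ 16 = z ^ q := by
      rw [hudef, ← pow_mul, hq, mul_comm]
    have e2 : u ^ 15 ≤ x := by
      have e3 : u * u ^ 15 ≤ 2 * x := by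
        calc u * u ^ 15 = u ^ 16 := by ring
          _ = z ^ q := e1
          _ ≤ 2 * x := hzx
      have e4 : 2 * u ^ 15 ≤ u * u ^ 15 := Nat.mul_le_mul_right _ hu2
      omega
    have e5 : ((u : ℝ) ^ (15 : ℕ)) ≤ x := by exact_mod_cast e2
    calc (u : ℝ) = ((u : ℝ) ^ (15 : ℕ)) ^ (1 / 15 : ℝ) := by
          rw [← Real.rpow_natCast, ← Real.rpow_mul (Nat.cast_nonneg u)]
          norm_num
      _ ≤ (x : ℝ) ^ (1 / 15 : ℝ) := Real.rpow_le_rpow (by positivity) e5 (by norm_num)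
  have hsub : ((range x).filter fun n : ℕ => ∀ j < J, ∃ s ∈ S j, ∀ p : ℕ, p.Prime → p ∣ n + s →
      (x : ℝ) ^ (1 / 15 : ℝ) < p) ⊆ (range (z ^ q)).filter fun n => Rough (z ^ k1) (range J) S n := by
    intro n hn
    have hn' := mem_filter.1 hn
    refine mem_filter.2 ⟨mem_range.2 (lt_of_lt_of_le (mem_range.1 hn'.1) hxz), fun j hj => ?_⟩
    obtain ⟨s, hs, h⟩ := hn'.2 j (mem_range.1 hj)
    refine ⟨s, hs, fun p hp hpu hpd => ?_⟩
    have h1 := h p hp hpd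
    have h2 : (p : ℝ) ≤ ((z ^ k1 : ℕ) : ℝ) := by exact_mod_cast hpu
    linarith
  refine (Nat.cast_le.2 (card_le_card hsub)).trans (hmain.trans ?_)
  have h1 : ((z ^ q : ℕ) : ℝ) ≤ 2 * x := by exact_mod_cast hzx
  calc δ' / 2 * ((z ^ q : ℕ) : ℝ) ≤ δ' / 2 * (2 * x) := mul_le_mul_of_nonneg_left h1 (by positivity)
    _ = δ' * x := by ring
    _ ≤ δ * x := mul_le_mul_of_nonneg_right hδ'δ hx0.le

end Pool.Agent.LibVO95
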