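import Pool.Agent.LibGP53.Defs

/-! Row A1: double counting for stretches of consecutive primes. -/

open Finset

namespace Pool.Agent.LibVO95

/-- the `n`-th prime -/
noncomputable abbrev pn (n : ℕ) : ℕ := Nat.nth Nat.Prime n

theorem pn_mono : StrictMono pn := Nat.nth_strictMono Nat.infinite_setOfPred_prime

theorem pn_prime (n : ℕ) : (pn n).Prime := Nat.prime_nth_prime n

/-- integers in bad position versus bad indices -/
theorem A1_count {K H : ℕ} (P B : Finset ℕ) (h1 : ∀ n ∈ P, pn n + H < pn (n + K))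
    (h2 : ∀ n ∈ P, ∀ m, pn n ≤ m → m < pn n + H → m ∈ B) : P.card * H ≤ B.card * K := by
  classical
  refine Finset.card_mul_le_card_mul (fun n m => pn n ≤ m ∧ m < pn n + H) ?_ ?_
  · intro n hn
    have hsub : Ico (pn n) (pn n + H) ⊆ B.bipartiteAbove (fun n m => pn n ≤ m ∧ m < pn n + H) n := by
      intro m hm
      rw [mem_Ico] at hm
      rw [mem_bipartiteAbove]
      exact ⟨h2 n hn m hm.1 hm.2, hm⟩
    have := card_le_card hsub
    rw [Nat.card_Ico] at this
    omega
  · intro m _
    set S := P.bipartiteBelow (fun n m => pn n ≤ m ∧ m < pn n + H) m with hS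
    rcases S.eq_empty_or_nonempty with h0 | h0
    · rw [h0]
      simp
    obtain ⟨n0, hn0, hmin⟩ := Finset.exists_min_image S id h0
    have hn0' := hn0
    rw [hS, mem_bipartiteBelow] at hn0'
    have hsub : S ⊆ Ico n0 (n0 + K) := by
      intro n hn
      have hnn := hn
      rw [hS, mem_bipartiteBelow] at hnn
      rw [mem_Ico]
      refine ⟨hmin n hn, ?_⟩
      have h3 : pn n < pn (n0 + K) := by
        have := h1 n0 hn0'.1
        omega
      exact pn_mono.lt_iff_lt.1 h3
    have := card_le_card hsub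
    rw [Nat.card_Ico] at this
    omega

/-- short stretches versus pairs of primes -/
theorem A1_pairs {K H x : ℕ} (P : Finset ℕ) (hx : ∀ n ∈ P, pn n < x)
    (h1 : ∀ n ∈ P, pn (n + K) ≤ pn n + H) :
    P.card * K ≤ (((range x) ×ˢ (Ioc 0 (0 + H))).filter fun v : ℕ × ℕ => v.1.Prime ∧ (v.1 + v.2).Prime).card := by
  classical
  have e1 : P.card * K = (P ×ˢ range K).card := by rw [card_product, card_range]
  rw [e1]
  refine Finset.card_le_card_of_injOn (fun v => (pn v.1, pn (v.1 + v.2 + 1) - pn v.1)) ?_ ?_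
  · intro v hv
    rw [mem_coe, mem_product, mem_range] at hv
    have h3 : pn v.1 < pn (v.1 + v.2 + 1) := pn_mono (by omega)
    have h4 : pn (v.1 + v.2 + 1) ≤ pn (v.1 + K) := pn_mono.monotone (by omega)
    have h5 := h1 v.1 hv.1
    rw [mem_coe, mem_filter, mem_product, mem_range, mem_Ioc]
    refine ⟨⟨hx v.1 hv.1, by simp only; omega, by simp only; omega⟩, pn_prime _, ?_⟩
    simp only
    rw [Nat.add_sub_cancel' h3.le]
    exact pn_prime _
  · intro v hv v' hv' h
    rw [Prod.mk.injEq] at h
    have h3 : pn v.1 < pn (v.1 + v.2 + 1) := pn_mono (by omega)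
    have h3' : pn v'.1 < pn (v'.1 + v'.2 + 1) := pn_mono (by omega)
    have h4 : v.1 = v'.1 := pn_mono.injective h.1
    have h5 : pn (v.1 + v.2 + 1) = pn (v'.1 + v'.2 + 1) := by
      have := h.1
      omega
    have h6 := pn_mono.injective h5
    exact Prod.ext h4 (by omega)

/-- a prime free block inside a stretch gives a long gap -/
theorem A1_gap {n K t h : ℕ} (h1 : pn n ≤ t) (h2 : t < pn (n + K)) (hf : GP.Free t h) :
    ∃ i < K, pn (n + i) + h < pn (n + i + 1) := by
  classical
  obtain ⟨i, hi⟩ : ∃ i, t < pn (n + i) := ⟨K, h2⟩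
  have hex : ∃ i, t < pn (n + i) := ⟨K, h2⟩
  set j := Nat.find hex with hj
  have hj1 : t < pn (n + j) := Nat.find_spec hex
  have hjK : j ≤ K := Nat.find_min' hex h2
  have hj0 : j ≠ 0 := by
    intro h0
    rw [h0, add_zero] at hj1
    omega
  obtain ⟨k, hk⟩ := Nat.exists_eq_succ_of_ne_zero hj0
  have hk1 : pn (n + k) ≤ t := by
    have := Nat.find_min hex (m := k) (by omega)
    omega
  refine ⟨k, by omega, ?_⟩
  have e1 : n + k + 1 = n + j := by omega
  rw [e1]
  by_contra hc
  exact hf (pn (n + j)) hj1 (by omega) (pn_prime _)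

end Pool.Agent.LibVO95
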