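import Pool.Agent.LibVO95.A1

/-! Row A2: almost every stretch of `K` consecutive gaps contains a long one. -/

open Finset Filter

namespace Pool.Agent.LibVO95

/-- Chebyshev's lower bound -/
theorem A2_cheb : ∃ N₀ : ℕ, ∀ N : ℕ, N₀ ≤ N → (pn N : ℝ) ≤ 4 * N * Real.log (pn N) := by
  have hev : ∀ᶠ x : ℕ in atTop, Real.log ((x : ℝ) + 1) ≤ (1 / 10 : ℝ) * x := by
    have hb : (0 : ℝ) < 1 / 20 := by norm_num
    have := Real.isLittleO_log_id_atTop.bound hb
    have h1 : Tendsto (fun x : ℕ => (x : ℝ) + 1) atTop atTop :=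
      tendsto_atTop_add_const_right _ _ tendsto_natCast_atTop_atTop
    filter_upwards [h1.eventually this, eventually_ge_atTop 1] with x hx hx1
    have hx1' : (1 : ℝ) ≤ x := by exact_mod_cast hx1
    have h3 : ‖Real.log ((x : ℝ) + 1)‖ ≤ 1 / 20 * ‖(x : ℝ) + 1‖ := by simpa using hx
    rw [Real.norm_of_nonneg (Real.log_nonneg (by linarith)),
      Real.norm_of_nonneg (by positivity)] at h3
    linarith
  obtain ⟨n0, hn0⟩ := eventually_atTop.1 hev
  refine ⟨max n0 2, fun N hN => ?_⟩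
  have hN2 : 2 ≤ N := (le_max_right _ _).trans hN
  have hNp : N ≤ pn N := pn_mono.le_apply
  have hx0 : n0 ≤ pn N := ((le_max_left _ _).trans hN).trans hNp
  have h1 := hn0 (pn N) hx0
  have h2 := Chebyshev.pi_ge (pn N)
  have hx2 : 2 ≤ pn N := (pn_prime N).two_le
  have hx2' : (2 : ℝ) ≤ pn N := by exact_mod_cast hx2
  have hlog : 0 < Real.log (pn N) := Real.log_pos (by linarith)
  have h3 : Nat.primeCounting (pn N) = N + 1 := by
    rw [Nat.primeCounting, Nat.primeCounting', Nat.count_succ]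
    rw [if_pos (pn_prime N), Nat.count_nth_of_infinite Nat.infinite_setOfPred_prime]
  rw [h3, div_le_iff₀ hlog] at h2
  have h4 : Real.log 2 > 0.6931471803 := Real.log_two_gt_d9
  have h5 : (pn N : ℝ) * (1 / 2) ≤ (N + 1 : ℕ) * Real.log (pn N) := by
    refine le_trans ?_ h2
    nlinarith
  push_cast at h5
  have h6 : (2 : ℝ) ≤ N := by exact_mod_cast hN2
  nlinarith

theorem gaps_all (hA : GP.AllBut) (hP : GP.Pairs) (T δ : ℝ) (hδ : 0 < δ) :
    ∃ K N₀ : ℕ, ∀ N : ℕ, N₀ ≤ N → (((range N).filter fun n : ℕ =>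
      ∀ i < K, (pn (n + i + 1) : ℝ) - pn (n + i) < T * Real.log (pn n)).card : ℝ) ≤ δ * N := by
  classical
  obtain ⟨C, hC, hpair⟩ := hP
  obtain ⟨T', hT'1, hTT'⟩ : ∃ T' : ℝ, 1 ≤ T' ∧ T ≤ T' := ⟨max T 1, le_max_right _ _, le_max_left _ _⟩
  set δ' : ℝ := δ / (16 * (64 * C / δ + 1)) with hδ'
  have hD : 0 < 64 * C / δ + 1 := by positivity
  have hδ'0 : 0 < δ' := by positivity
  obtain ⟨Λ0, hΛ0, x1, hx1⟩ := hA T' (by linarith) δ' hδ'0
  obtain ⟨Λ, hΛ1, hΛ⟩ : ∃ Λ : ℝ, 1 ≤ Λ ∧ Λ0 ≤ Λ := ⟨max Λ0 1, le_max_right _ _, le_max_left _ _⟩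
  obtain ⟨x2, hx2⟩ := hpair Λ (4 * Λ) (by linarith)
  set K : ℕ := ⌈64 * C * Λ / δ⌉₊ with hK
  have hK1 : 64 * C * Λ / δ ≤ K := Nat.le_ceil _
  have hK0 : (0 : ℝ) < K := lt_of_lt_of_le (by positivity) hK1
  have hK2 : (K : ℝ) ≤ (64 * C / δ + 1) * Λ := by
    have := (Nat.ceil_lt_add_one (show 0 ≤ 64 * C * Λ / δ by positivity)).le
    calc (K : ℝ) ≤ 64 * C * Λ / δ + 1 := this
      _ ≤ 64 * C * Λ / δ + Λ := by linarith
      _ = (64 * C / δ + 1) * Λ := by ring
  obtain ⟨N1, hN1⟩ := A2_cheb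
  obtain ⟨N2, hN2⟩ := exists_nat_ge (4 * K / δ)
  refine ⟨K, max (max (max x1 x2) (max N1 N2)) 3, fun N hN => ?_⟩
  have hNx1 : x1 ≤ N := (((le_max_left _ _).trans (le_max_left _ _)).trans (le_max_left _ _)).trans hN
  have hNx2 : x2 ≤ N := (((le_max_right _ _).trans (le_max_left _ _)).trans (le_max_left _ _)).trans hN
  have hNN1 : N1 ≤ N := (((le_max_left _ _).trans (le_max_right _ _)).trans (le_max_left _ _)).trans hN
  have hNN2 : N2 ≤ N := (((le_max_right _ _).trans (le_max_right _ _)).trans (le_max_left _ _)).trans hN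
  have hN3 : 3 ≤ N := (le_max_right _ _).trans hN
  have hNp : N ≤ pn N := pn_mono.le_apply
  set x : ℕ := pn N with hx
  have hxr : (3 : ℝ) ≤ x := by exact_mod_cast hN3.trans hNp
  have hx0 : (0 : ℝ) < x := by linarith
  have hlog1 : 1 ≤ Real.log x := by
    rw [Real.le_log_iff_exp_le hx0]
    have := Real.exp_one_lt_d9
    linarith
  have hlog0 : 0 < Real.log x := by linarith
  have hch : (x : ℝ) ≤ 4 * N * Real.log x := hN1 N hNN1
  have hNr0 : (0 : ℝ) < N := by
    have : 0 < N := by omega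
    exact_mod_cast this
  -- the lengths
  set H0 : ℕ := ⌈Λ * Real.log x⌉₊ with hH0
  have hΛlog : 1 ≤ Λ * Real.log x := by nlinarith
  have hH1 : Λ * Real.log x ≤ H0 := Nat.le_ceil _
  have hH2 : (H0 : ℝ) ≤ 2 * (Λ * Real.log x) := by
    have := (Nat.ceil_lt_add_one (show 0 ≤ Λ * Real.log x by positivity)).le
    linarith
  -- the bad integers
  set B : Finset ℕ := (range x).filter fun n =>
    ¬ ∃ a : ℕ, (a : ℝ) ≤ Λ0 * Real.log x ∧ GP.Free (n + a) ⌈T' * Real.log x⌉₊ with hB
  have hBc : (B.card : ℝ) ≤ δ' * x := by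
    have := hx1 x (hNx1.trans hNp)
    unfold GP.num at this
    rw [hB]
    convert this
  -- the three sets
  set P := (range N).filter fun n : ℕ =>
    ∀ i < K, (pn (n + i + 1) : ℝ) - pn (n + i) < T * Real.log (pn n) with hPdef
  set P2 := P.filter fun n => n + K ≤ N ∧ pn (n + K) ≤ pn n + 2 * H0 with hP2
  set P3 := P.filter fun n => n + K ≤ N ∧ ¬ pn (n + K) ≤ pn n + 2 * H0 with hP3
  have hsub : P ⊆ Ico (N - K) N ∪ (P2 ∪ P3) := by
    intro n hn
    have hnN : n < N := by
      have := (mem_filter.1 hn).1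
      exact mem_range.1 this
    by_cases h1 : n + K ≤ N
    · by_cases h2 : pn (n + K) ≤ pn n + 2 * H0
      · exact mem_union.2 (Or.inr (mem_union.2 (Or.inl (mem_filter.2 ⟨hn, h1, h2⟩))))
      · exact mem_union.2 (Or.inr (mem_union.2 (Or.inr (mem_filter.2 ⟨hn, h1, h2⟩))))
    · refine mem_union.2 (Or.inl (mem_Ico.2 ?_))
      omega
  have hPx : ∀ n ∈ P, pn n < x := fun n hn => pn_mono (mem_range.1 (mem_filter.1 hn).1)
  -- P2
  have h2 : (P2.card : ℝ) ≤ δ / 4 * N := by
    have e1 := A1_pairs (K := K) (H := 2 * H0) (x := x) P2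
      (fun n hn => hPx n (mem_filter.1 hn).1) (fun n hn => (mem_filter.1 hn).2.2)
    have e2 := hx2 x (hNx2.trans hNp) 0 (2 * H0) (by push_cast; nlinarith) (by push_cast; nlinarith)
    have e3 : (P2.card : ℝ) * K ≤ C * ((2 * H0 : ℕ) : ℝ) * x / Real.log x ^ 2 := by
      refine le_trans ?_ e2
      exact_mod_cast e1
    have e4 : C * ((2 * H0 : ℕ) : ℝ) * x / Real.log x ^ 2 ≤ 16 * C * Λ * N := by
      rw [div_le_iff₀ (by positivity)]
      push_cast
      have e5 : C * (2 * (H0 : ℝ)) * x ≤ C * (2 * (2 * (Λ * Real.log x))) * (4 * N * Real.log x) := by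
        apply mul_le_mul _ hch hx0.le (by positivity)
        apply mul_le_mul_of_nonneg_left _ hC.le
        linarith
      calc C * (2 * (H0 : ℝ)) * x ≤ _ := e5
        _ = 16 * C * Λ * N * Real.log x ^ 2 := by ring
    have e6 : (P2.card : ℝ) * K ≤ δ / 4 * N * K := by
      have e7 : 16 * C * Λ * N ≤ δ / 4 * N * K := by
        have e8 : 64 * C * Λ ≤ K * δ := by
          rw [div_le_iff₀ hδ] at hK1
          exact hK1
        nlinarith
      exact (e3.trans e4).trans e7
    exact le_of_mul_le_mul_right e6 hK0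
  -- P3
  have h3 : (P3.card : ℝ) ≤ δ / 4 * N := by
    have e1 := A1_count (K := K) (H := H0) P3 B
      (fun n hn => by
        have := (mem_filter.1 hn).2.2
        omega)
      (fun n hn m hm1 hm2 => by
        obtain ⟨hnP, hnK, hnH⟩ := mem_filter.1 hn
        have hnH' : pn n + 2 * H0 < pn (n + K) := not_le.1 hnH
        have hKx : pn (n + K) ≤ x := pn_mono.monotone hnK
        rw [hB, mem_filter, mem_range]
        refine ⟨by omega, ?_⟩
        rintro ⟨a, ha, hfree⟩
        have ha' : a ≤ H0 := by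
          have : (a : ℝ) ≤ H0 := by
            refine ha.trans (le_trans ?_ hH1)
            exact mul_le_mul_of_nonneg_right hΛ hlog0.le
          exact_mod_cast this
        obtain ⟨i, hi, hgap⟩ := A1_gap (n := n) (K := K) (t := m + a) (by omega) (by omega) hfree
        have h5 := (mem_filter.1 hnP).2 i hi
        have h6 : ((pn (n + i) + ⌈T' * Real.log x⌉₊ : ℕ) : ℝ) < pn (n + i + 1) := by
          exact_mod_cast hgap
        push_cast at h6
        have h7 := Nat.le_ceil (T' * Real.log x)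
        have h8 : Real.log (pn n) ≤ Real.log x := by
          apply Real.log_le_log
          · exact_mod_cast (pn_prime n).pos
          · exact_mod_cast (hPx n hnP).le
        have h9 : 0 ≤ Real.log (pn n) := Real.log_natCast_nonneg _
        have h10 : T * Real.log (pn n) ≤ T' * Real.log x := by
          calc T * Real.log (pn n) ≤ T' * Real.log (pn n) := mul_le_mul_of_nonneg_right hTT' h9
            _ ≤ T' * Real.log x := mul_le_mul_of_nonneg_left h8 (by linarith)
        linarith)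
    have e2 : (P3.card : ℝ) * H0 ≤ B.card * K := by exact_mod_cast e1
    have e3 : (P3.card : ℝ) * (Λ * Real.log x) ≤ δ' * x * K :=
      (mul_le_mul_of_nonneg_left hH1 (Nat.cast_nonneg _)).trans
        (e2.trans (mul_le_mul_of_nonneg_right hBc hK0.le))
    have e4 : δ' * x * K ≤ δ / 4 * N * (Λ * Real.log x) := by
      calc δ' * x * K ≤ δ' * (4 * N * Real.log x) * ((64 * C / δ + 1) * Λ) := by
            apply mul_le_mul _ hK2 hK0.le (by positivity)
            exact mul_le_mul_of_nonneg_left hch hδ'0.le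
        _ = (δ' * (16 * (64 * C / δ + 1))) * (N * (Λ * Real.log x)) / 4 := by ring
        _ = δ * (N * (Λ * Real.log x)) / 4 := by
            rw [hδ', div_mul_cancel₀ _ (by positivity)]
        _ = δ / 4 * N * (Λ * Real.log x) := by ring
    exact le_of_mul_le_mul_right (e3.trans e4) (by positivity)
  have h1 : ((Ico (N - K) N).card : ℝ) ≤ δ / 4 * N := by
    rw [Nat.card_Ico]
    have e1 : ((N - (N - K) : ℕ) : ℝ) ≤ K := by
      have : N - (N - K) ≤ K := by omega
      exact_mod_cast this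
    have e2 : 4 * (K : ℝ) / δ ≤ N := hN2.trans (by exact_mod_cast hNN2)
    rw [div_le_iff₀ hδ] at e2
    linarith
  have hc : (P.card : ℝ) ≤ (Ico (N - K) N).card + (P2.card + P3.card) := by
    have := (card_le_card hsub).trans ((card_union_le _ _).trans
      (Nat.add_le_add_left (card_union_le _ _) _))
    exact_mod_cast this
  have hfin : δ / 4 * N + (δ / 4 * N + δ / 4 * N) ≤ δ * N := by nlinarith [mul_pos hδ hNr0]
  linarith

end Pool.Agent.LibVO95
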