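import Pool.Agent.LibVO95.B2

/-! Row B3: all `n < z^(16 k1)`. -/

open Finset Filter

namespace Pool.Agent.LibVO95

open Pool.Agent.LibRG87 Pool.Agent.LibLG5

open scoped Classical in
theorem B3_blocks (l δ : ℝ) (hl : 1 ≤ l) (hδ : 0 < δ) (hδ1 : δ ≤ 1) : ∃ k1 J : ℕ, 3 ≤ k1 ∧ 0 < J ∧
    ∀ᶠ z : ℕ in atTop, ∀ S : ℕ → Finset ℕ,
      (∀ i < J, ∀ j < J, i ≠ j → Disjoint (S i) (S j)) →
      (∀ j < J, ∀ s ∈ S j, 1 ≤ s ∧ (s : ℝ) ≤ Real.log z ^ 2) →
      (∀ j < J, ((S j).card : ℝ) ≤ 32 * l * k1 * Real.log z) →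
      (((range (z ^ (16 * k1))).filter fun n => Rough (z ^ k1) (range J) S n).card : ℝ) ≤
        δ / 2 * ((z ^ (16 * k1) : ℕ) : ℝ) := by
  obtain ⟨k1, Bd, hk1, hBd, hev⟩ := B1_class (8 * l / δ) (δ / 24)
    (by rw [le_div_iff₀ hδ]; linarith) (by positivity) (by linarith)
  obtain ⟨J, hJ⟩ := exists_nat_ge (max 1 (16 * Bd / δ))
  have hJ1 : (1 : ℝ) ≤ J := (le_max_left _ _).trans hJ
  have hJ0 : 0 < J := by
    have : (0 : ℝ) < J := by linarith
    exact_mod_cast this
  have hBJ : 2 * Bd / J ≤ δ / 8 := by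
    rw [div_le_iff₀ (by linarith)]
    have := (le_max_right _ _).trans hJ
    rw [div_le_iff₀ hδ] at this
    linarith
  refine ⟨k1, J, hk1, hJ0, ?_⟩
  obtain ⟨z1, hz1⟩ := exists_nat_ge (8 / δ)
  have hlog : Tendsto (fun n : ℕ => Real.log n) atTop atTop :=
    Real.tendsto_log_atTop.comp tendsto_natCast_atTop_atTop
  filter_upwards [hev, eventually_ge_atTop 4, eventually_ge_atTop z1,
    hlog.eventually_ge_atTop 2] with z hz hz4 hzz1 hzlog
  intro S hdis hS hcard
  set W := primorial (wf z) with hWdef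
  have hW0 : 0 < W := primorial_pos _
  have hW0' : (0 : ℝ) < W := by exact_mod_cast hW0
  have hwz : wf z ≤ z := by
    unfold wf
    have h2 : Nat.log 2 (Nat.log 2 z) ≤ Nat.log 2 z := Nat.log_le_self 2 _
    have h3 : Nat.log 2 z ≤ z := Nat.log_le_self 2 _
    omega
  have hz4' : (4 : ℝ) ≤ z := by exact_mod_cast hz4
  have hz0 : (0 : ℝ) < z := by linarith
  have hlogz : Real.log z ≤ z := (Real.log_le_sub_one_of_pos hz0).trans (by linarith)
  have hWz : W ≤ z := by
    have h1 := primorial_wf_le hz4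
    have hlog2 : (1 / 2 : ℝ) < Real.log 2 := by
      have := Real.log_two_gt_d9
      linarith
    have hW2 : (W : ℝ) ^ 2 ≤ 2 * Real.log z := by
      refine h1.trans ?_
      rw [div_le_iff₀ (by linarith)]
      nlinarith
    have : (W : ℝ) ≤ z := by
      refine (pow_le_pow_iff_left₀ hW0'.le hz0.le two_ne_zero).mp ?_
      refine hW2.trans ?_
      nlinarith
    exact_mod_cast this
  obtain ⟨N, hN⟩ : ∃ N : ℕ, N = z ^ (16 * k1) := ⟨_, rfl⟩
  obtain ⟨M, hM⟩ : ∃ M : ℕ, M = N / W := ⟨_, rfl⟩
  have hM1 : z ^ (16 * k1 - 1) ≤ M := by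
    rw [hM, Nat.le_div_iff_mul_le hW0, hN]
    calc z ^ (16 * k1 - 1) * W ≤ z ^ (16 * k1 - 1) * z := Nat.mul_le_mul_left _ hWz
      _ = z ^ (16 * k1) := by
          rw [← pow_succ]
          congr 1
          omega
  have hWM : W * M ≤ N := by rw [hM]; exact Nat.mul_div_le N W
  have hNW : N - W * M ≤ z := by
    have h5 := Nat.div_add_mod N W
    rw [← hM] at h5
    have h6 := Nat.mod_lt N hW0
    omega
  have hcM : ∀ c < W, ∀ m < M, c + W * m ≤ z ^ (16 * k1) := by
    intro c hc m hm
    have h1 : W * (m + 1) ≤ W * M := Nat.mul_le_mul_left W hm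
    have h3 : W * (m + 1) = W * m + W := by ring
    rw [← hN]
    omega
  -- thresholds
  have hk1' : (3 : ℝ) ≤ k1 := by exact_mod_cast hk1
  set t : ℝ := 64 * (8 * l / δ) * k1 with ht
  have ht0 : 0 < t := by positivity
  have hV := (V1_pos (wf z) z).le
  have hNT := NT_V (by omega : 2 ≤ z) hwz
  have hlz0 : 0 < Real.log z := by linarith
  have hB : ∀ j < J, (W.totient : ℝ) * (S j).card * V1 (wf z) z ≤ δ / 16 * W * t := by
    intro j hj
    have e1 : (W.totient : ℝ) * V1 (wf z) z ≤ W / Real.log z := by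
      have : (W.totient : ℝ) * V1 (wf z) z = W * ((W.totient : ℝ) / W * V1 (wf z) z) := by
        field_simp
      rw [this]
      calc (W : ℝ) * ((W.totient : ℝ) / W * V1 (wf z) z) ≤ W * (1 / Real.log z) :=
            mul_le_mul_of_nonneg_left hNT hW0'.le
        _ = W / Real.log z := by ring
    calc (W.totient : ℝ) * (S j).card * V1 (wf z) z = (W.totient * V1 (wf z) z) * (S j).card := by ring
      _ ≤ W / Real.log z * (32 * l * k1 * Real.log z) :=
          mul_le_mul e1 (hcard j hj) (Nat.cast_nonneg _) (by positivity)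
      _ = 32 * l * k1 * W := by field_simp
      _ = δ / 16 * W * t := by
          rw [ht]
          field_simp
          ring
  have hcls := B2_classes (W := W) S hV ht0 hB hJ0
  -- one class
  set good : ℕ → Finset ℕ := fun c => (range J).filter fun j => ((SC W c (S j)).card : ℝ) * V1 (wf z) z ≤ t
    with hgood
  have hclass : ∀ c < W, (J : ℝ) ≤ 2 * ((good c).card : ℝ) →
      (((range M).filter fun m => Rough (z ^ k1) (range J) S (c + W * m)).card : ℝ) ≤ δ / 4 * M := by
    intro c hc hg
    have hgpos : 0 < (good c).card := by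
      have : (0 : ℝ) < (good c).card := by linarith
      exact_mod_cast this
    have hgsub : good c ⊆ range J := filter_subset _ _
    have h1 := hz c M (good c) S (card_pos.1 hgpos)
      (fun i hi j hj hij => hdis i (mem_range.1 (hgsub hi)) j (mem_range.1 (hgsub hj)) hij)
      (fun j hj => hS j (mem_range.1 (hgsub hj)))
      (fun j hj => (mem_filter.1 hj).2) hM1 (hcM c hc)
    have h2 : ((range M).filter fun m => Rough (z ^ k1) (range J) S (c + W * m)) ⊆
        ((range M).filter fun m => Rough (z ^ k1) (good c) S (c + W * m)) := by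
      intro m hm
      rw [mem_filter] at hm ⊢
      exact ⟨hm.1, fun j hj => hm.2 j (hgsub hj)⟩
    refine (Nat.cast_le.2 (card_le_card h2)).trans (h1.trans ?_)
    apply mul_le_mul_of_nonneg_right _ (Nat.cast_nonneg M)
    have h3 : Bd / ((good c).card : ℝ) ≤ 2 * Bd / J := by
      have hg0 : (0 : ℝ) < (good c).card := by exact_mod_cast hgpos
      rw [div_le_div_iff₀ hg0 (by linarith)]
      nlinarith
    linarith
  -- the sum
  have hsub : ((range N).filter fun n => Rough (z ^ k1) (range J) S n) ⊆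
      Ico (W * M) N ∪ (range W).biUnion fun c =>
        ((range M).filter fun m => Rough (z ^ k1) (range J) S (c + W * m)).image fun m => c + W * m := by
    intro n hn
    rw [mem_filter, mem_range] at hn
    by_cases a2 : W * M ≤ n
    · exact mem_union.2 (Or.inl (mem_Ico.2 ⟨a2, hn.1⟩))
    refine mem_union.2 (Or.inr (mem_biUnion.2 ⟨n % W, mem_range.2 (Nat.mod_lt _ hW0), ?_⟩))
    have e1 : n % W + W * (n / W) = n := Nat.mod_add_div n W
    have a3 : n / W < M := by
      rw [Nat.div_lt_iff_lt_mul hW0, mul_comm]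
      exact Nat.lt_of_not_le a2
    refine mem_image.2 ⟨n / W, mem_filter.2 ⟨mem_range.2 a3, ?_⟩, e1⟩
    rw [e1]
    exact hn.2
  have hcardN := (card_le_card hsub).trans ((card_union_le _ _).trans
    (Nat.add_le_add_left card_biUnion_le _))
  rw [Nat.card_Ico] at hcardN
  have hMr : (0 : ℝ) ≤ M := Nat.cast_nonneg M
  have hone : ∀ c ∈ range W, ((((range M).filter fun m => Rough (z ^ k1) (range J) S (c + W * m)).image
      fun m => c + W * m).card : ℝ) ≤ δ / 4 * M +
        (if ¬ (J : ℝ) ≤ 2 * ((good c).card : ℝ) then (M : ℝ) else 0) := by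
    intro c hc
    have h1 : ((((range M).filter fun m => Rough (z ^ k1) (range J) S (c + W * m)).image
      fun m => c + W * m).card : ℝ) ≤
        ((range M).filter fun m => Rough (z ^ k1) (range J) S (c + W * m)).card := by
      exact_mod_cast card_image_le
    by_cases hg : (J : ℝ) ≤ 2 * ((good c).card : ℝ)
    · rw [if_neg (not_not.2 hg), add_zero]
      exact h1.trans (hclass c (mem_range.1 hc) hg)
    · rw [if_pos hg]
      have h2 : (((range M).filter fun m => Rough (z ^ k1) (range J) S (c + W * m)).card : ℝ) ≤ M := by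
        have := card_filter_le (range M) fun m => Rough (z ^ k1) (range J) S (c + W * m)
        rw [card_range] at this
        exact_mod_cast this
      have h3 : 0 ≤ δ / 4 * M := by positivity
      linarith
  have hsum : ((∑ c ∈ range W, (((range M).filter fun m => Rough (z ^ k1) (range J) S (c + W * m)).image
      fun m => c + W * m).card : ℕ) : ℝ) ≤ W * (δ / 4 * M) + (δ / 8 * W) * M := by
    push_cast
    refine (sum_le_sum hone).trans ?_
    rw [sum_add_distrib, sum_const, card_range, nsmul_eq_mul]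
    have h4 : (∑ c ∈ range W, if ¬ (J : ℝ) ≤ 2 * ((good c).card : ℝ) then (M : ℝ) else 0) =
        (((range W).filter fun c => ¬ (J : ℝ) ≤ 2 * ((good c).card : ℝ)).card : ℝ) * M := by
      rw [← sum_filter, sum_const, nsmul_eq_mul]
    rw [h4]
    have h5 : (((range W).filter fun c => ¬ (J : ℝ) ≤ 2 * ((good c).card : ℝ)).card : ℝ) ≤
        δ / 8 * W := by
      refine hcls.trans (le_of_eq ?_)
      ring
    have h6 := mul_le_mul_of_nonneg_right h5 hMr
    linarith
  have hfin : (((range N).filter fun n => Rough (z ^ k1) (range J) S n).card : ℝ) ≤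
      z + (W * (δ / 4 * M) + (δ / 8 * W) * M) := by
    have h7 : (((range N).filter fun n => Rough (z ^ k1) (range J) S n).card : ℝ) ≤
        ((N - W * M + ∑ c ∈ range W, (((range M).filter fun m =>
          Rough (z ^ k1) (range J) S (c + W * m)).image fun m => c + W * m).card : ℕ) : ℝ) := by
      exact_mod_cast hcardN
    refine h7.trans ?_
    rw [Nat.cast_add]
    have h8 : ((N - W * M : ℕ) : ℝ) ≤ z := by exact_mod_cast hNW
    linarith
  rw [← hN]
  refine hfin.trans ?_
  have hWMR : (W : ℝ) * M ≤ N := by exact_mod_cast hWM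
  have hNz : (z : ℝ) * z ≤ N := by
    have h9 : z ^ 2 ≤ z ^ (16 * k1) := Nat.pow_le_pow_right (by omega) (by omega)
    rw [← hN] at h9
    have : ((z ^ 2 : ℕ) : ℝ) ≤ N := by exact_mod_cast h9
    push_cast at this
    nlinarith
  have hz8 : 8 / δ ≤ z := hz1.trans (by exact_mod_cast hzz1)
  rw [div_le_iff₀ hδ] at hz8
  have hz' : (z : ℝ) ≤ δ / 8 * N := by nlinarith
  have h10 : (W : ℝ) * (δ / 4 * M) + (δ / 8 * W) * M = 3 * δ / 8 * (W * M) := by ring
  rw [h10]
  have h11 : 3 * δ / 8 * (W * M) ≤ 3 * δ / 8 * N := mul_le_mul_of_nonneg_left hWMR (by positivity)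
  linarith

end Pool.Agent.LibVO95
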